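import Pool.Agent.H75.SH.Stm

/-! Crew SH, part PM. -/

set_option autoImplicit false

open Finset

namespace Pool.Agent.H33.SH

open Pool.Agent.H75.SH Pool.Agent.H75.AS
open Pool.Agent.H387R2.Uni (Ab gd)

theorem t_PM : S_PM := by
  intro k δ C hδ hC
  obtain ⟨m, hm⟩ : ∃ m : ℝ, m = max 1 (C / δ) := ⟨_, rfl⟩
  have hm1 : 1 ≤ m := by rw [hm]; exact le_max_left _ _
  have hm2 : C / δ ≤ m := by rw [hm]; exact le_max_right _ _
  refine ⟨2 * m, by linarith, ?_⟩
  intro W q c N A hW hq hN hr hA hcard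
  classical
  have hW0 : (0 : ℝ) < W := by exact_mod_cast hW
  have hφ : (0 : ℝ) < Nat.totient W := by exact_mod_cast Nat.totient_pos.2 hW
  have hr0 : (0 : ℝ) < rad q := by exact_mod_cast rad_pos q
  have hφr : (0 : ℝ) < Nat.totient (rad q) := by exact_mod_cast Nat.totient_pos.2 (rad_pos q)
  obtain ⟨L, hLd⟩ : ∃ L : ℝ, L = Real.log N := ⟨_, rfl⟩
  have hL : 0 < L := by
    rw [hLd]
    exact Real.log_pos (by exact_mod_cast (by omega : 1 < N))
  obtain ⟨u, hud⟩ : ∃ u : ℝ, u = (W : ℝ) / (Nat.totient W * L) := ⟨_, rfl⟩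
  have hu0 : 0 < u := by rw [hud]; positivity
  have hu : u * (Nat.totient W * L) = W := by
    rw [hud, div_mul_cancel₀ _ (by positivity)]
  have hmb : ∀ b, mb W N A b = (Ab W A b).card * u := fun b => by
    unfold mb
    rw [hud, hLd]
  simp only [hmb]
  rw [← hLd] at hcard
  obtain ⟨G, hG⟩ : ∃ G : Finset ℕ, G = gd W (rad q) c := ⟨_, rfl⟩
  rw [← hG]
  have hGs : G ⊆ range W := by rw [hG]; exact filter_subset _ _
  have hz : ∀ b ∈ range W, b ∉ G → Ab W A b = ∅ := by
    intro b hb hb'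
    apply Ab_emp hr hq hA
    intro h
    rw [hG] at hb'
    exact hb' (mem_filter.2 ⟨hb, h⟩)
  have hsum : ∀ j : ℕ, ∑ b ∈ G, ((Ab W A b).card * u) ^ (j + 1) =
      ∑ b ∈ range W, ((Ab W A b).card * u) ^ (j + 1) := fun j =>
    sum_subset hGs fun b hb hb' => by rw [hz b hb hb']; simp
  have hGc : (G.card : ℝ) ≤ 2 * (Nat.totient q / q * W) := by
    have h1 : (G.card : ℝ) ≤ Nat.totient (rad q) * ((W / rad q : ℕ) + 1) := by
      rw [hG]
      exact_mod_cast Pool.Agent.H387R2.Uni.card_gd W (rad q) c (rad_pos q)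
    have h2 : ((W / rad q : ℕ) : ℝ) ≤ W / rad q := Nat.cast_div_le
    have h3 : (1 : ℝ) ≤ W / rad q := by
      rw [le_div_iff₀ hr0, one_mul]
      exact_mod_cast Nat.le_of_dvd hW hr
    calc (G.card : ℝ) ≤ Nat.totient (rad q) * ((W / rad q : ℕ) + 1) := h1
      _ ≤ Nat.totient (rad q) * (W / rad q + W / rad q) := by gcongr
      _ = 2 * (Nat.totient (rad q) / rad q * W) := by ring
      _ = _ := by rw [rad_totient hq]
  have hmean : m * G.card ≤ ∑ b ∈ G, ((Ab W A b).card : ℝ) * u := by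
    have h1 := hsum 0
    simp only [zero_add, pow_one] at h1
    rw [h1, ← sum_mul]
    have h2 : ∑ b ∈ range W, ((Ab W A b).card : ℝ) = A.card * Nat.totient W := by
      exact_mod_cast Pool.Agent.H387R2.Uni.sum_card_Ab W A
    rw [h2]
    have h3 : m * G.card ≤ 2 * m * (Nat.totient q / q) * W := by nlinarith
    have h4 : 2 * m * (Nat.totient q / q) * W * L ≤ A.card * Nat.totient W * u * L := by
      have e : A.card * Nat.totient W * u * L = A.card * W := by
        rw [← hu]; ring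
      rw [e]
      calc 2 * m * (Nat.totient q / q) * W * L = 2 * m * (Nat.totient q / q) * L * W := by ring
        _ ≤ _ := mul_le_mul_of_nonneg_right hcard hW0.le
    exact h3.trans (le_of_mul_le_mul_right h4 hL)
  rcases G.eq_empty_or_nonempty with hGe | hGne
  · rw [hGe, card_empty, Nat.cast_zero, mul_zero]
    exact mul_nonneg hδ.le (sum_nonneg fun b _ => by positivity)
  have hG0 : (0 : ℝ) < G.card := by exact_mod_cast hGne.card_pos
  have hpm := pow_sum_div_card_le_sum_pow (s := G) (f := fun b => ((Ab W A b).card : ℝ) * u)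
    (fun b _ => by positivity) k
  have h5 : (G.card : ℝ) * m ^ (k + 1) ≤ ∑ b ∈ G, (((Ab W A b).card : ℝ) * u) ^ (k + 1) := by
    refine le_trans ?_ hpm
    rw [le_div_iff₀ (by positivity)]
    calc (G.card : ℝ) * m ^ (k + 1) * (G.card : ℝ) ^ k = (m * G.card) ^ (k + 1) := by
          rw [mul_pow, pow_succ (G.card : ℝ)]
          ring
      _ ≤ _ := pow_le_pow_left₀ (by positivity) hmean _
  rw [hsum k] at h5
  have h6 : m ≤ m ^ (k + 1) := le_self_pow₀ hm1 (by omega)
  have h7 : C ≤ δ * m := by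
    rw [div_le_iff₀ hδ] at hm2
    linarith
  calc C * (G.card : ℝ) ≤ δ * m * G.card := mul_le_mul_of_nonneg_right h7 hG0.le
    _ ≤ δ * m ^ (k + 1) * G.card :=
        mul_le_mul_of_nonneg_right (mul_le_mul_of_nonneg_left h6 hδ.le) hG0.le
    _ = δ * (G.card * m ^ (k + 1)) := by ring
    _ ≤ _ := mul_le_mul_of_nonneg_left h5 hδ.le

end Pool.Agent.H33.SH
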